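import Pool.Agent.Helper76.Q5P7.StC

/-!
# T5 (levels `5 * 7^n`), module DIME: the dimension of `subEH`
-/

set_option autoImplicit false

namespace Pool.Agent.Helper39.Q5P7

open Pool.Agent.Helper14.CV (Homog EqC act StFar)
open Pool.Agent.Helper76.S7 (Pt trp ng dR Iv Kl Dv Ty anti7 inv1 inv7 S7DimK S7Split)
open Pool.Agent.Helper28.T5
open Pool.Agent.Helper76.Q5P7

section lin

variable {W W' : Type} [AddCommGroup W] [Module ℂ W] [FiniteDimensional ℂ W] [AddCommGroup W']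
  [Module ℂ W']

private theorem rn (f : W →ₗ[ℂ] W') (V : Submodule ℂ W) :
    Module.finrank ℂ (V.map f) + Module.finrank ℂ ↥(V ⊓ LinearMap.ker f) =
      Module.finrank ℂ V := by
  have h := LinearMap.finrank_range_add_finrank_ker (f.domRestrict V)
  rw [LinearMap.range_domRestrict, LinearMap.ker_domRestrict] at h
  have h2 : Module.finrank ℂ ↥((LinearMap.ker f).comap V.subtype) =
      Module.finrank ℂ ↥(V ⊓ LinearMap.ker f) := by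
    rw [← Submodule.map_comap_subtype, Submodule.finrank_map_subtype_eq]
  rw [h2] at h
  exact h

end lin

section lin2

variable {W W' : Type} [AddCommGroup W] [Module ℂ W] [FiniteDimensional ℂ W] [AddCommGroup W']
  [Module ℂ W'] [FiniteDimensional ℂ W']

private theorem fr_prod (V : Submodule ℂ W) (V' : Submodule ℂ W') :
    Module.finrank ℂ ↥(V.prod V') = Module.finrank ℂ V + Module.finrank ℂ V' := by
  have h1 : V.prod V' = LinearMap.range (V.subtype.prodMap V'.subtype) := by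
    rw [LinearMap.range_prodMap, Submodule.range_subtype, Submodule.range_subtype]
  rw [h1, LinearMap.finrank_range_of_inj, Module.finrank_prod]
  rintro ⟨a, b⟩ ⟨a', b'⟩ h
  simp only [LinearMap.prodMap_apply, Submodule.subtype_apply, Prod.mk.injEq,
    SetLike.coe_eq_coe] at h
  rw [h.1, h.2]

end lin2

private theorem pw0 {m : ℕ} (hm : 1 ≤ m) : (7 : ZMod (7 ^ m)) * 7 ^ (m - 1) = 0 := by
  rw [← pow_succ', Nat.sub_add_cancel hm]
  have h3 := ZMod.natCast_self (7 ^ m)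
  push_cast at h3
  exact h3

private theorem red {m : ℕ} (hm : 1 ≤ m) (t : ℤ) :
    (t : ZMod (7 ^ m)) * 7 ^ (m - 1) = ((t : ZMod 7).val : ZMod (7 ^ m)) * 7 ^ (m - 1) := by
  have h1 : ((t : ZMod 7).val : ℤ) = t % 7 := by
    rw [ZMod.val_intCast]
    norm_num
  have h2 : (((t : ZMod 7).val : ℕ) : ZMod (7 ^ m)) = ((t % 7 : ℤ) : ZMod (7 ^ m)) := by
    rw [← h1]
    push_cast
    rfl
  rw [h2]
  have h3 : t = t % 7 + 7 * (t / 7) := (Int.emod_add_mul_ediv t 7).symm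
  have h4 : (t : ZMod (7 ^ m)) = ((t % 7 : ℤ) : ZMod (7 ^ m)) + 7 * ((t / 7 : ℤ) : ZMod (7 ^ m)) := by
    conv_lhs => rw [h3]
    push_cast
    ring
  rw [h4]
  linear_combination ((t / 7 : ℤ) : ZMod (7 ^ m)) * pw0 hm

private theorem sum_zmod (g : ℕ → ℂ) :
    ∑ i ∈ Finset.range 7, g i = ∑ z : ZMod 7, g z.val := by
  have : ∀ h : ZMod 7 → ℂ, ∑ z : ZMod 7, h z = ∑ i : Fin 7, h i := fun h => rfl
  rw [Finset.sum_range, this]
  rfl

private theorem sum_s {m : ℕ} (hm : 1 ≤ m) (s : ℤ) (hs : ¬ (7 : ℤ) ∣ s)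
    (g : ZMod (7 ^ m) → ℂ) :
    ∑ i ∈ Finset.range 7, g (s * ((i : ZMod (7 ^ m)) * 7 ^ (m - 1))) =
      ∑ i ∈ Finset.range 7, g ((i : ZMod (7 ^ m)) * 7 ^ (m - 1)) := by
  have hf : Fact (Nat.Prime 7) := ⟨by norm_num⟩
  have hs0 : (s : ZMod 7) ≠ 0 := by
    intro h
    exact hs ((ZMod.intCast_zmod_eq_zero_iff_dvd s 7).1 h)
  rw [sum_zmod (fun i => g (s * ((i : ZMod (7 ^ m)) * 7 ^ (m - 1)))),
    sum_zmod (fun i => g ((i : ZMod (7 ^ m)) * 7 ^ (m - 1)))]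
  refine Fintype.sum_equiv (Equiv.mulLeft₀ (s : ZMod 7) hs0) _ _ fun z => ?_
  have h1 := red hm (s * (z.val : ℤ))
  have h2 : ((s * (z.val : ℤ) : ℤ) : ZMod 7) = (s : ZMod 7) * z := by
    push_cast
    rw [ZMod.natCast_zmod_val]
  rw [h2] at h1
  change g (s * ((z.val : ZMod (7 ^ m)) * 7 ^ (m - 1))) =
    g ((((s : ZMod 7) * z).val : ZMod (7 ^ m)) * 7 ^ (m - 1))
  rw [← h1]
  congr 1
  push_cast
  ring

private theorem anti_s {m : ℕ} (hm : 1 ≤ m) {F : Pt m → ℂ} (hF : F ∈ anti7 m) (s : ℤ)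
    (hs : ¬ (7 : ℤ) ∣ s) (x y : ZMod (7 ^ m)) :
    ∑ i ∈ Finset.range 7, F (x + s * (i * 7 ^ (m - 1)), y) = 0 ∧
      ∑ i ∈ Finset.range 7, F (x, y + s * (i * 7 ^ (m - 1))) = 0 := by
  obtain ⟨h1, h2⟩ := hF (x, y)
  constructor
  · rw [sum_s hm s hs (fun t => F (x + t, y))]
    exact h1
  · rw [sum_s hm s hs (fun t => F (x, y + t))]
    exact h2

private theorem dv_step {m : ℕ} (hm : 1 ≤ m) {s : ℤ} {φ : ZMod (7 ^ m) → ZMod (7 ^ m)}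
    (h : Dv s φ) (x : ZMod (7 ^ m)) (i : ℕ) :
    φ (x + i * 7 ^ (m - 1)) = φ x + s * (i * 7 ^ (m - 1)) := by
  have h1 := h (m - 1) (x + i * 7 ^ (m - 1)) x ⟨i, by ring⟩
  have h2 : (7 : ZMod (7 ^ m)) ^ (m - 1 + 1) = 0 := by
    rw [Nat.sub_add_cancel hm]
    have h3 := ZMod.natCast_self (7 ^ m)
    push_cast at h3
    exact h3
  rw [h2, zero_dvd_iff] at h1
  linear_combination h1

private theorem anti_comp {m n : ℕ} (hm : 1 ≤ m) {r : Pt m → Pt m} (hr : Ty n r) {F : Pt m → ℂ}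
    (hF : F ∈ anti7 m) : (fun p => F (r p)) ∈ anti7 m := by
  rcases hr with ⟨_, s, s', φ, φ', hs, _, hs', _, hφ, hφ', hr⟩ | ⟨_, s, s', ψ, ψ', hs, hs', hψ, hψ', hr⟩
  · intro p
    simp only [hr, dv_step hm hφ, dv_step hm hφ']
    exact ⟨(anti_s hm hF s hs (φ p.1) (φ' p.2)).1, (anti_s hm hF s' hs' (φ p.1) (φ' p.2)).2⟩
  · intro p
    simp only [hr, dv_step hm hψ, dv_step hm hψ']
    exact ⟨(anti_s hm hF s' hs' (ψ p.2) (ψ' p.1)).2, (anti_s hm hF s hs (ψ p.2) (ψ' p.1)).1⟩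


private theorem n1 : (((-1 : ℤ) : ℂ)) = -1 := by push_cast; rfl
private theorem p1 : (((1 : ℤ) : ℂ)) = 1 := by push_cast; rfl

private def K8 {m : ℕ} : Fn m →ₗ[ℂ] (Pt m → ℂ) where
  toFun F p := yyH F.1.1.1 F.1.1.2 F.1.2.1 F.1.2.2 F.2.1.1.1 F.2.1.1.2 p +
    yyH F.1.1.1 F.1.1.2 F.1.2.1 F.1.2.2 F.2.1.1.1 F.2.1.1.2 (d8H p)
  map_add' F F' := by
    funext p
    simp only [yyH, bbH, aaH, Prod.fst_add, Prod.snd_add, Pi.add_apply]
    ring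
  map_smul' c F := by
    funext p
    simp only [yyH, bbH, aaH, Prod.smul_fst, Prod.smul_snd, Pi.smul_apply, smul_eq_mul,
      RingHom.id_apply]
    ring

private def K9 {m : ℕ} : Fn m →ₗ[ℂ] (Pt m → ℂ) where
  toFun F p := zzH F.1.1.2 F.1.2.1 F.2.1.1.1 F.2.1.2.1 F.2.1.2.2 F.2.2.1.1 F.2.2.1.2 F.2.2.2.1
      F.2.2.2.2 p +
    zzH F.1.1.2 F.1.2.1 F.2.1.1.1 F.2.1.2.1 F.2.1.2.2 F.2.2.1.1 F.2.2.1.2 F.2.2.2.1
      F.2.2.2.2 (d9H p)
  map_add' F F' := by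
    funext p
    simp only [zzH, hhH, ccH, kkH, Prod.fst_add, Prod.snd_add, Pi.add_apply]
    ring
  map_smul' c F := by
    funext p
    simp only [zzH, hhH, ccH, kkH, Prod.smul_fst, Prod.smul_snd, Pi.smul_apply, smul_eq_mul,
      RingHom.id_apply]
    ring

private theorem K8_apply {m : ℕ} (F : Fn m) (p : Pt m) :
    K8 F p = yyH F.1.1.1 F.1.1.2 F.1.2.1 F.1.2.2 F.2.1.1.1 F.2.1.1.2 p +
      yyH F.1.1.1 F.1.1.2 F.1.2.1 F.1.2.2 F.2.1.1.1 F.2.1.1.2 (d8H p) := rfl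

private theorem K9_apply {m : ℕ} (F : Fn m) (p : Pt m) :
    K9 F p = zzH F.1.1.2 F.1.2.1 F.2.1.1.1 F.2.1.2.1 F.2.1.2.2 F.2.2.1.1 F.2.2.1.2 F.2.2.2.1
        F.2.2.2.2 p +
      zzH F.1.1.2 F.1.2.1 F.2.1.1.1 F.2.1.2.1 F.2.1.2.2 F.2.2.1.1 F.2.2.1.2 F.2.2.2.1
        F.2.2.2.2 (d9H p) := rfl

private theorem aa_mem {m : ℕ} (hm : 1 ≤ m) (hsw : Ty 1 (swH : Pt m → Pt m)) {f L : Pt m → ℂ}
    (hf : f ∈ anti7 m) (hL : L ∈ anti7 m) : aaH f L ∈ anti7 m := by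
  have e : aaH f L = f - L - (fun p => L (swH p)) := rfl
  rw [e]
  exact Submodule.sub_mem _ (Submodule.sub_mem _ hf hL) (anti_comp hm hsw hL)

private theorem bb_mem {m : ℕ} {F1 D F2 A : Pt m → ℂ} (h1 : F1 ∈ anti7 m) (hD : D ∈ anti7 m)
    (h2 : F2 ∈ anti7 m) (hA : A ∈ anti7 m) : bbH F1 D F2 A ∈ anti7 m := by
  have e : bbH F1 D F2 A = F1 + D - F2 - A := rfl
  rw [e]
  exact Submodule.sub_mem _ (Submodule.sub_mem _ (Submodule.add_mem _ h1 hD) h2) hA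

private theorem yy_mem {m : ℕ} (hm : 1 ≤ m) (hsw : Ty 1 (swH : Pt m → Pt m))
    (hc : Ty 1 (c8H : Pt m → Pt m)) (hg : Ty 0 (g4H : Pt m → Pt m)) {f L F1 D F2 A : Pt m → ℂ}
    (hf : f ∈ anti7 m) (hL : L ∈ anti7 m) (h1 : F1 ∈ anti7 m) (hD : D ∈ anti7 m)
    (h2 : F2 ∈ anti7 m) (hA : A ∈ anti7 m) : yyH f L F1 D F2 A ∈ anti7 m := by
  have e : yyH f L F1 D F2 A = bbH F1 D F2 A + (fun p => bbH F1 D F2 A (c8H p)) +
    (fun p => aaH f L (g4H p)) := rfl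
  rw [e]
  exact Submodule.add_mem _ (Submodule.add_mem _ (bb_mem h1 hD h2 hA)
    (anti_comp hm hc (bb_mem h1 hD h2 hA))) (anti_comp hm hg (aa_mem hm hsw hf hL))

private theorem cc_mem {m : ℕ} {F2 B C F3 E : Pt m → ℂ} (h2 : F2 ∈ anti7 m) (hB : B ∈ anti7 m)
    (hC : C ∈ anti7 m) (h3 : F3 ∈ anti7 m) (hE : E ∈ anti7 m) : ccH F2 B C F3 E ∈ anti7 m := by
  have e : ccH F2 B C F3 E = F2 - B - C - F3 - E := rfl
  rw [e]
  exact Submodule.sub_mem _ (Submodule.sub_mem _ (Submodule.sub_mem _ (Submodule.sub_mem _ h2 hB)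
    hC) h3) hE

private theorem hh_mem {m : ℕ} (hm : 1 ≤ m) (hg : Ty 1 (g2H : Pt m → Pt m))
    {L F1 F2 B C F3 E H : Pt m → ℂ} (hL : L ∈ anti7 m) (h1 : F1 ∈ anti7 m) (h2 : F2 ∈ anti7 m)
    (hB : B ∈ anti7 m) (hC : C ∈ anti7 m) (h3 : F3 ∈ anti7 m) (hE : E ∈ anti7 m)
    (hH : H ∈ anti7 m) : hhH L F1 F2 B C F3 E H ∈ anti7 m := by
  have e : hhH L F1 F2 B C F3 E H = L - F1 - H + (fun p => ccH F2 B C F3 E (g2H p)) := rfl
  rw [e]
  exact Submodule.add_mem _ (Submodule.sub_mem _ (Submodule.sub_mem _ hL h1) hH)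
    (anti_comp hm hg (cc_mem h2 hB hC h3 hE))

private theorem kk_mem {m : ℕ} (hm : 1 ≤ m) (hc : Ty 1 (c6H : Pt m → Pt m)) {F3 J : Pt m → ℂ}
    (h3 : F3 ∈ anti7 m) (hJ : J ∈ anti7 m) : kkH F3 J ∈ anti7 m := by
  have e : kkH F3 J = F3 + (fun p => F3 (c6H p)) - J := rfl
  rw [e]
  exact Submodule.sub_mem _ (Submodule.add_mem _ h3 (anti_comp hm hc h3)) hJ

private theorem zz_mem {m : ℕ} (hm : 1 ≤ m) (hg2 : Ty 1 (g2H : Pt m → Pt m))
    (hc6 : Ty 1 (c6H : Pt m → Pt m)) (hc9 : Ty 1 (c9H : Pt m → Pt m))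
    (hg5 : Ty 0 (g5H : Pt m → Pt m))
    {L F1 F2 B C F3 E J H : Pt m → ℂ} (hL : L ∈ anti7 m) (h1 : F1 ∈ anti7 m) (h2 : F2 ∈ anti7 m)
    (hB : B ∈ anti7 m) (hC : C ∈ anti7 m) (h3 : F3 ∈ anti7 m) (hE : E ∈ anti7 m)
    (hJ : J ∈ anti7 m) (hH : H ∈ anti7 m) : zzH L F1 F2 B C F3 E J H ∈ anti7 m := by
  have e : zzH L F1 F2 B C F3 E J H = hhH L F1 F2 B C F3 E H +
    (fun p => hhH L F1 F2 B C F3 E H (c9H p)) + (fun p => kkH F3 J (g5H p)) := rfl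
  have h := hh_mem hm hg2 hL h1 h2 hB hC h3 hE hH
  rw [e]
  exact Submodule.add_mem _ (Submodule.add_mem _ h (anti_comp hm hc9 h))
    (anti_comp hm hg5 (kk_mem hm hc6 h3 hJ))

/-- **Module DIME.** -/
theorem hDimE : StHDimE := by
  intro ht hk hs m hm
  obtain ⟨⟨a1, a2, a3, a4⟩, -, -, -, ⟨c1, c2, c3, c4⟩, ⟨d1, d2, d3, d4⟩, ⟨e1, e2, e3, e4⟩,
    ⟨⟨B1, B2⟩, ⟨E1, E2⟩, ⟨D1, D2⟩, ⟨A1, A2⟩, ⟨C1, C2⟩, ⟨H1, H2⟩⟩, g2,
    ⟨⟨g4, k4⟩, gk4, kg4, gc4⟩, ⟨⟨g5, k5⟩, gk5, kg5, gc5⟩⟩ := ht m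
  obtain ⟨eV, q1, q2, -⟩ := hk m hm
  have eF := q2 ng swH 0 1 1 1 1 a1 a2 a3 a4 (Or.inl rfl) (Or.inl rfl)
  have eD := q1 rDH 1 D1 D2 (Or.inl rfl)
  have eA := q1 rAH 1 A1 A2 (Or.inl rfl)
  have eB := q1 cBH (-1) B1 B2 (Or.inr rfl)
  have eC := q1 rCH 1 C1 C2 (Or.inl rfl)
  have eE := q1 cEH (-1) E1 E2 (Or.inr rfl)
  have eJ := q2 (dR 1) c6H 0 1 1 1 1 c1 c2 c3 c4 (Or.inl rfl) (Or.inl rfl)
  have eH := q1 rHH 1 H1 H2 (Or.inl rfl)
  have e8 := q2 c8H d8H 1 1 0 1 1 d1 d2 d3 d4 (Or.inl rfl) (Or.inl rfl)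
  have e9 := q2 c9H d9H 1 1 0 1 1 e1 e2 e3 e4 (Or.inl rfl) (Or.inl rfl)
  rw [p1] at eF eD eA eC eJ eH e8 e9
  rw [n1] at eB eE
  set Vf := inv7 (m := m) ng swH 1 1 with hVf
  set VD := inv1 (m := m) rDH 1 with hVD
  set VA := inv1 (m := m) rAH 1 with hVA
  set VB := inv1 (m := m) cBH (-1) with hVB
  set VC := inv1 (m := m) rCH 1 with hVC
  set VE := inv1 (m := m) cEH (-1) with hVE
  set VJ := inv7 (m := m) (dR 1) c6H 1 1 with hVJ
  set VH := inv1 (m := m) rHH 1 with hVH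
  set T8 := inv7 (m := m) c8H d8H 1 1 with hT8
  set T9 := inv7 (m := m) c9H d9H 1 1 with hT9
  set Q : Fn m →ₗ[ℂ] ((Pt m → ℂ) × (Pt m → ℂ)) := LinearMap.prod K8 K9 with hQ
  have hQa : ∀ F, Q F = (K8 F, K9 F) := fun _ => rfl
  have hmap : (((Vf.prod (anti7 m)).prod ((anti7 m).prod VD)).prod
      ((((anti7 m).prod VA).prod (VB.prod VC)).prod
        (((anti7 m).prod VE).prod (VJ.prod VH)))).map Q = T8.prod T9 := by
    apply le_antisymm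
    · rintro _ ⟨F, hF, rfl⟩
      obtain ⟨⟨⟨hf, hL⟩, h1, hD⟩, ⟨⟨h2, hA⟩, hB, hC⟩, ⟨h3, hE⟩, hJ, hH⟩ := hF
      have hfs : ∀ p, F.1.1.1 (swH p) = F.1.1.1 p := by
        intro p
        rw [(hf.2 p).2, one_mul]
      have hJs : ∀ p, F.2.2.2.1 (c6H p) = F.2.2.2.1 p := by
        intro p
        rw [(hJ.2 p).2, one_mul]
      have hy := yy_mem hm a3 d2 g4 hf.1 hL h1 hD.1 h2 hA.1
      have hz := zz_mem hm g2 c3 e2 g5 hL h1 h2 hB.1 hC.1 h3 hE.1 hJ.1 hH.1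
      have hyc : ∀ p, yyH F.1.1.1 F.1.1.2 F.1.2.1 F.1.2.2 F.2.1.1.1 F.2.1.1.2 (c8H p) =
          yyH F.1.1.1 F.1.1.2 F.1.2.1 F.1.2.2 F.2.1.1.1 F.2.1.1.2 p := by
        intro p
        simp only [yyH, aaH]
        rw [d1.1 p, gc4 p, hfs (g4H p), a1.2.1 (g4H p)]
        ring
      have hzc : ∀ p, zzH F.1.1.2 F.1.2.1 F.2.1.1.1 F.2.1.2.1 F.2.1.2.2 F.2.2.1.1 F.2.2.1.2
            F.2.2.2.1 F.2.2.2.2 (c9H p) =
          zzH F.1.1.2 F.1.2.1 F.2.1.1.1 F.2.1.2.1 F.2.1.2.2 F.2.2.1.1 F.2.2.1.2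
            F.2.2.2.1 F.2.2.2.2 p := by
        intro p
        simp only [zzH, kkH]
        rw [e1.1 p, gc5 p, hJs (g5H p), c1.2.1 (g5H p)]
        ring
      rw [hQa]
      refine ⟨⟨?_, fun p => ⟨?_, ?_⟩⟩, ⟨?_, fun p => ⟨?_, ?_⟩⟩⟩
      · have e : K8 F = yyH F.1.1.1 F.1.1.2 F.1.2.1 F.1.2.2 F.2.1.1.1 F.2.1.1.2 +
            (fun p => yyH F.1.1.1 F.1.1.2 F.1.2.1 F.1.2.2 F.2.1.1.1 F.2.1.1.2 (d8H p)) := rfl
        rw [e]
        exact Submodule.add_mem _ hy (anti_comp hm d3 hy)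
      · show K8 F (c8H p) = 1 * K8 F p
        rw [K8_apply, K8_apply, hyc p, ← d1.2.2 p, hyc (d8H p)]
        ring
      · show K8 F (d8H p) = 1 * K8 F p
        rw [K8_apply, K8_apply, d1.2.1 p]
        ring
      · have e : K9 F = zzH F.1.1.2 F.1.2.1 F.2.1.1.1 F.2.1.2.1 F.2.1.2.2 F.2.2.1.1 F.2.2.1.2
              F.2.2.2.1 F.2.2.2.2 +
            (fun p => zzH F.1.1.2 F.1.2.1 F.2.1.1.1 F.2.1.2.1 F.2.1.2.2 F.2.2.1.1 F.2.2.1.2
              F.2.2.2.1 F.2.2.2.2 (d9H p)) := rfl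
        rw [e]
        exact Submodule.add_mem _ hz (anti_comp hm e3 hz)
      · show K9 F (c9H p) = 1 * K9 F p
        rw [K9_apply, K9_apply, hzc p, ← e1.2.2 p, hzc (d9H p)]
        ring
      · show K9 F (d9H p) = 1 * K9 F p
        rw [K9_apply, K9_apply, e1.2.1 p]
        ring
    · rintro ⟨φ, ψ⟩ ⟨hφ, hψ⟩
      simp only at hφ hψ
      have k81 : ∀ p, φ (c8H p) = φ p := fun p => by rw [(hφ.2 p).1, one_mul]
      have k82 : ∀ p, φ (d8H p) = φ p := fun p => by rw [(hφ.2 p).2, one_mul]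
      have k91 : ∀ p, ψ (c9H p) = ψ p := fun p => by rw [(hψ.2 p).1, one_mul]
      have k92 : ∀ p, ψ (d9H p) = ψ p := fun p => by rw [(hψ.2 p).2, one_mul]
      have w4 : ∀ p, k4H (swH p) = c8H (k4H p) := fun p => by
        have h := gc4 (k4H p)
        rw [gk4 p] at h
        rw [← h, kg4]
      have w5 : ∀ p, k5H (c6H p) = c9H (k5H p) := fun p => by
        have h := gc5 (k5H p)
        rw [gk5 p] at h
        rw [← h, kg5]
      obtain ⟨u, hud⟩ : ∃ u : Pt m → ℂ, u = (-(4 : ℂ)⁻¹) • (fun p => φ (k4H p)) := ⟨_, rfl⟩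
      obtain ⟨v, hvd⟩ : ∃ v : Pt m → ℂ, v = ((4 : ℂ)⁻¹) • (fun p => ψ (k5H p)) := ⟨_, rfl⟩
      have hu : u ∈ anti7 m := by
        rw [hud]
        exact Submodule.smul_mem _ _ (anti_comp hm k4 hφ.1)
      have hv : v ∈ anti7 m := by
        rw [hvd]
        exact Submodule.smul_mem _ _ (anti_comp hm k5 hψ.1)
      have hup : ∀ p, u p = -4⁻¹ * φ (k4H p) := fun p => by rw [hud]; rfl
      have hvp : ∀ p, v p = 4⁻¹ * ψ (k5H p) := fun p => by rw [hvd]; rfl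
      obtain ⟨u1, hu1, u2, hu2, un, ud, uu⟩ := hs 1 m hm u hu
      obtain ⟨v1, hv1, v2, hv2, vn, vd, vv⟩ := hs 1 m hm v hv
      have hus : ∀ p, u (swH p) = u p := fun p => by rw [hup, hup, w4 p, k81]
      have hvs : ∀ p, v (c6H p) = v p := fun p => by rw [hvp, hvp, w5 p, k91]
      have hG : u2 + v1 ∈ anti7 m := Submodule.add_mem _ hu2 hv1
      have hf : (v1 + (fun p => v1 (swH p))) - (u1 + (fun p => u1 (swH p))) ∈ anti7 m :=
        Submodule.sub_mem _ (Submodule.add_mem _ hv1 (anti_comp hm a3 hv1))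
          (Submodule.add_mem _ hu1 (anti_comp hm a3 hu1))
      have hJ : (u2 + (fun p => u2 (c6H p))) - (v2 + (fun p => v2 (c6H p))) ∈ anti7 m :=
        Submodule.sub_mem _ (Submodule.add_mem _ hu2 (anti_comp hm c3 hu2))
          (Submodule.add_mem _ hv2 (anti_comp hm c3 hv2))
      refine ⟨((((v1 + (fun p => v1 (swH p))) - (u1 + (fun p => u1 (swH p))), u2 + v1),
          (u2 + v1, 0)), (((u2 + v1, 0), (0, 0)),
          ((u2 + v1, 0), ((u2 + (fun p => u2 (c6H p))) - (v2 + (fun p => v2 (c6H p))), 0)))),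
        ⟨⟨⟨⟨hf, fun p => ⟨?_, ?_⟩⟩, hG⟩, hG, Submodule.zero_mem _⟩,
          ⟨⟨hG, Submodule.zero_mem _⟩, Submodule.zero_mem _, Submodule.zero_mem _⟩,
          ⟨hG, Submodule.zero_mem _⟩, ⟨hJ, fun p => ⟨?_, ?_⟩⟩, Submodule.zero_mem _⟩, ?_⟩
      · simp only [Pi.add_apply, Pi.sub_apply]
        rw [← a1.2.2 p, un p, un (swH p), vn p, vn (swH p)]
        ring
      · simp only [Pi.add_apply, Pi.sub_apply]
        rw [a1.2.1 p]
        ring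
      · simp only [Pi.add_apply, Pi.sub_apply]
        rw [← c1.2.2 p, ud p, ud (c6H p), vd p, vd (c6H p)]
        ring
      · simp only [Pi.add_apply, Pi.sub_apply]
        rw [c1.2.1 p]
        ring
      · rw [hQa, Prod.mk.injEq]
        refine ⟨?_, ?_⟩
        · funext p
          rw [K8_apply]
          simp only [yyH, bbH, aaH, Pi.add_apply, Pi.sub_apply, Pi.zero_apply]
          have z1 := uu (g4H p)
          have z2 := uu (swH (g4H p))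
          have z3 := uu (g4H (d8H p))
          have z4 := uu (swH (g4H (d8H p)))
          rw [hus, hup, kg4] at z2 z4
          rw [hup, kg4] at z1 z3
          rw [k82 p] at z3 z4
          linear_combination -z1 - z2 - z3 - z4
        · funext p
          rw [K9_apply]
          simp only [zzH, hhH, ccH, kkH, Pi.add_apply, Pi.sub_apply, Pi.zero_apply]
          have z1 := vv (g5H p)
          have z2 := vv (c6H (g5H p))
          have z3 := vv (g5H (d9H p))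
          have z4 := vv (c6H (g5H (d9H p)))
          rw [hvs, hvp, kg5] at z2 z4
          rw [hvp, kg5] at z1 z3
          rw [k92 p] at z3 z4
          linear_combination z1 + z2 + z3 + z4
  have hker : (((Vf.prod (anti7 m)).prod ((anti7 m).prod VD)).prod
      ((((anti7 m).prod VA).prod (VB.prod VC)).prod
        (((anti7 m).prod VE).prod (VJ.prod VH)))) ⊓ LinearMap.ker Q = subEH m := by
    ext F
    constructor
    · rintro ⟨⟨⟨⟨h1, h2⟩, h3, h4⟩, ⟨⟨h5, h6⟩, h7, h8⟩, ⟨h9, h10⟩, h11, h12⟩, h13⟩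
      rw [SetLike.mem_coe, LinearMap.mem_ker, hQa, Prod.mk_eq_zero] at h13
      obtain ⟨k8, k9⟩ := h13
      exact ⟨⟨h1, h2, h3, h4⟩, ⟨h5, h6, h7, h8⟩, ⟨h9, h10, h11, h12⟩, fun p => congrFun k8 p,
        fun p => congrFun k9 p⟩
    · rintro ⟨⟨h1, h2, h3, h4⟩, ⟨h5, h6, h7, h8⟩, ⟨h9, h10, h11, h12⟩, k8, k9⟩
      refine ⟨⟨⟨⟨h1, h2⟩, h3, h4⟩, ⟨⟨h5, h6⟩, h7, h8⟩, ⟨h9, h10⟩, h11, h12⟩, ?_⟩
      rw [SetLike.mem_coe, LinearMap.mem_ker, hQa, Prod.mk_eq_zero]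
      exact ⟨funext k8, funext k9⟩
  have i1 : FiniteDimensional ℂ ((Pt m → ℂ) × (Pt m → ℂ)) := inferInstance
  have i2 : FiniteDimensional ℂ (((Pt m → ℂ) × (Pt m → ℂ)) × ((Pt m → ℂ) × (Pt m → ℂ))) :=
    Module.Finite.prod
  have i3 : FiniteDimensional ℂ ((((Pt m → ℂ) × (Pt m → ℂ)) × ((Pt m → ℂ) × (Pt m → ℂ))) ×
      (((Pt m → ℂ) × (Pt m → ℂ)) × ((Pt m → ℂ) × (Pt m → ℂ)))) := Module.Finite.prod
  have i4 : FiniteDimensional ℂ (Fn m) := Module.Finite.prod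
  have h6 := rn Q (((Vf.prod (anti7 m)).prod ((anti7 m).prod VD)).prod
      ((((anti7 m).prod VA).prod (VB.prod VC)).prod
        (((anti7 m).prod VE).prod (VJ.prod VH))))
  rw [hmap, hker] at h6
  simp only [fr_prod] at h6
  zify at h6 eV ⊢
  push_cast at eF eD eA eB eC eE eJ eH e8 e9
  linarith

end Pool.Agent.Helper39.Q5P7

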